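import Pool.Agent.H571R3.CoverDef
set_option autoImplicit false

/-- Question Q1: for every `q ≥ 1` the biplanar crossing number of `K_{6,q}` is
`2 ⌊q/8⌋ (q - 4 ⌊q/8⌋ - 4)`. -/
theorem Pool.Agent.Results.MP_d3b8e5_co.SixFormula.result :
    ∀ q : ℕ, 1 ≤ q →
      (H571R3.cr2 (completeBipartiteGraph (Fin 6) (Fin q)) : ℤ) =
        2 * ((q / 8 : ℕ) : ℤ) * ((q : ℤ) - 4 * ((q / 8 : ℕ) : ℤ) - 4) :=
  fun q _ => H571R3.six_int q
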